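import Pool.Agent.Q111.AE.Main

/-!
Zero in the spectrum for closed aspherical manifolds (and finite aspherical complexes) whose
fundamental group `G` has an amenable normal subgroup `N`, e.g. for total spaces of fibre bundles
whose fibre is an infrasolvmanifold: if `0` is in the spectrum for the quotient `Q = G/N`, then it
is in the spectrum for `G`, provided that the homology of `N` in low degrees is mild.

`X : FinRes G` is the cellular chain complex of the universal cover of a finite aspherical complex
with fundamental group `G`, and `X.homology (toRed G) i` is `H_i(G; C*_r(G))`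
(`Pool.Agent.H919R4.ZS.Defs`). `X.homology (prN N) q` is the homology of `ℤ[G/N] ⊗ C_*`, i.e.
`H_q(N; ℤ)` as a module over `ℤ[G/N]`; `prN N : ℤ[G] → ℤ[G/N]` is the projection and
`Mild (MonoidAlgebra ℤ (G ⧸ N))` is the class of modules which have a finite filtration by
submodules with factors of finite exponent or infinite cyclic (`Pool.Agent.Q111.AE.Main`).
Amenability is the Foelner condition (`Pool.Agent.H496R3.ZS.Stmt`).
-/

set_option autoImplicit false

namespace Pool.Agent.Results.MP_48737f_gt.AmenableKernels

open Pool.Agent.H919R4.ZS (FinRes toRed)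
open Pool.Agent.H496R3.ZS (IsAmenable)
open Pool.Agent.Q111.AE (prN Mild)

/-- Let `N` be an amenable normal subgroup of `G`. Let `X` and `Y` be finite free resolutions for
`G` and `G/N`. Suppose that `H_i(G/N; C*_r(G/N)) ≠ 0` and that for `1 ≤ q < i` the
`ℤ[G/N]`-module `H_q(N; ℤ)` has a finite filtration with factors of finite exponent or infinite
cyclic. Then `H_j(G; C*_r(G)) ≠ 0` for some `j ≤ i`. -/
theorem result (G : Type) [Group G] (N : Subgroup G) [N.Normal] (hN : IsAmenable N)
    (X : FinRes G) (Y : FinRes (G ⧸ N)) (i : ℕ)
    (hY : Nontrivial (Y.homology (toRed (G ⧸ N)) i))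
    (hH : ∀ q, 1 ≤ q → q < i → Mild (MonoidAlgebra ℤ (G ⧸ N)) (X.homology (prN N) q)) :
    ∃ j ≤ i, Nontrivial (X.homology (toRed G) j) := by
  by_contra hcon
  push Not at hcon
  exact not_nontrivial_iff_subsingleton.2 (Pool.Agent.Q111.AE.main N hN X Y i hH
    (fun j hj => not_nontrivial_iff_subsingleton.1 (by simpa using hcon j hj)) i le_rfl) hY

end Pool.Agent.Results.MP_48737f_gt.AmenableKernels
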