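import Pool.Agent.Q111.ZI.Orth

/-!
Zero in the spectrum for a closed aspherical manifold `M` which has a covering `M_C` with non-zero
intersection form, with coefficients in a tempered unitary representation of `C`.

`X : FinRes G` is the cellular chain complex of the universal cover of `M` (or of any finite
aspherical complex with fundamental group `G`), and `X.homology (toRed G) i` is
`H_i(M; C*_r(G))` (`Pool.Agent.H919R4.ZS.Defs`). Chains on the covering `M_C` with compact support
and coefficients in a unitary representation `π` of `C`, the boundary `bd` and tempered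
representations are defined in `Pool.Agent.TH98.ZT.Defs`, amenability (the Foelner condition) in
`Pool.Agent.H496R3.ZS.Stmt`; the coboundary `cobd` is the adjoint of `bd`
(`Pool.Agent.Q111.ZI.Pair`).

If `M` is a closed `n`-manifold, the cohomology with compact supports `H^k_c(M_C; V)` is
`H_(n-k)(M_C; V ⊗ w)` by Poincaré duality, `w` the orientation character, and the pairing of
cycles and cocycles is the intersection form.
-/

set_option autoImplicit false

namespace Pool.Agent.Results.MP_48737f_gt.CoveringIntersection

open Pool.Agent.H919R4.ZS (FinRes toRed)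
open Pool.Agent.H496R3.ZS (IsAmenable)
open Pool.Agent.TH98.ZT (URep cyc IsChn Tempered)
open Pool.Agent.Q111.ZI (cobd)

/-- Let `C` be any subgroup of `G` and let `π` be a unitary representation of `C` on an inner
product space `V`. Suppose that `C` is amenable, or that `π` is tempered. Let `f` be a `k`-cycle
and `u` a `k`-cocycle of the covering `M_C`, both with compact support and with coefficients in
`V`; they vanish outside the cosets `C t`, `t ∈ T`, which are pairwise different. If
`⟪f, u⟫ = ∑_j ∑_(t ∈ T) ⟪f j t, u j t⟫ ≠ 0`, then `H_i(M; C*_r(G)) ≠ 0` for some `i ≤ k`. -/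
theorem result (G : Type) [Group G] (X : FinRes G) (C : Subgroup G)
    (V : Type) [NormedAddCommGroup V] [InnerProductSpace ℂ V] (π : URep C V)
    (hπ : IsAmenable C ∨ Tempered π) (k : ℕ) (f u : Fin (X.n k) → G → V)
    (hf : f ∈ cyc X π k) (hu : IsChn π u) (hdu : cobd (X.d k) u = 0) (T : Finset G)
    (hT : ∀ t ∈ T, ∀ t' ∈ T, t * t'⁻¹ ∈ C → t = t')
    (hfT : ∀ (j : Fin (X.n k)) (x : G), f j x ≠ 0 → ∃ t ∈ T, x * t⁻¹ ∈ C)
    (huT : ∀ (j : Fin (X.n k)) (x : G), u j x ≠ 0 → ∃ t ∈ T, x * t⁻¹ ∈ C)
    (h : ∑ j, ∑ t ∈ T, (inner ℂ (f j t) (u j t) : ℂ) ≠ 0) :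
    ∃ i ≤ k, Nontrivial (X.homology (toRed G) i) := by
  by_contra hcon
  push Not at hcon
  exact h (Pool.Agent.Q111.ZI.pairing X k (fun i hi =>
    not_nontrivial_iff_subsingleton.1 (by simpa using hcon i hi)) π hπ f u hf hu hdu hT hfT huT)

end Pool.Agent.Results.MP_48737f_gt.CoveringIntersection
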