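import Pool.Agent.Q134.ZS.SubMain
import Pool.Agent.H919R4.ZS.Final

/-!
Zero in the spectrum of a closed aspherical manifold whose universal cover has a slow map to the
universal cover of a subgroup.

A closed aspherical manifold `M` with fundamental group `G` is homotopy equivalent to a finite CW
complex, and the cellular chain complex of the universal cover of that complex is a finite free
resolution `X : FinRes G` of the trivial `ℤ[G]`-module `ℤ` (`Pool.Agent.H919R4.ZS.Defs`). Let
`N ≤ G` be a subgroup which has a finite resolution `Y : FinRes N`, e.g. the fundamental group of a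
finite aspherical complex or of a closed aspherical manifold `F`. There is an `N`-equivariant map
from the universal cover of `M` to the universal cover of `F`, unique up to `N`-homotopy. A
cellular one induces a `SubMap X N Y` (`Pool.Agent.Q134.ZS.SubDefs`). The index of `N` may be
infinite, so this map may stretch the cells `γ e` by larger and larger factors when `γ` goes to
infinity in `N \ G`.

The theorem: if for some `N`-chain map the total size of the images of the cells `γ e` up to
dimension `k`, for `N γ` in the ball of radius `r` of `N \ G`, grows subexponentially in `r` (for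
infinitely many `r`), and zero is in the spectrum of `F` in a degree `≤ k`, then zero is in the
spectrum of `M` in a degree `≤ k`. For example `M` may fibre over a circle, a torus or another
closed manifold with a fundamental group `G / N` of subexponential growth and with fibre `F`, if
the monodromy acts on the chains of the universal cover of `F` with subexponential growth.
-/

set_option autoImplicit false

namespace Pool.Agent.Results.MP_48737f_gt.SlowMaps

open Pool.Agent.H919R4.ZS (FinRes toRed)
open Pool.Agent.Q134.ZS (SubMap)

/-- Let `X` and `Y` be finite resolutions for `G` and for a subgroup `N` of `G`, and let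
`P : C_*(X) → C_*(Y)` be a `ℤ[N]`-linear chain map (over the identity of `ℤ`) with subexponential
growth up to the degree `k`.

(1) If `H_i(N; C*_r(N)) ≠ 0` for some `i ≤ k`, then `H_i(G; C*_r(G)) ≠ 0` for some `i ≤ k`.

(2) In particular `H_i(G; C*_r(G)) ≠ 0` for some `i ≤ k` if `2 ≤ k` and if either `Y` has length
at most `2` or `H^q(N; ℤ[N]) ≠ 0` for some `q ≤ 2` (e.g. `N` is the fundamental group of a closed
surface, of a finite aspherical complex of dimension two, or has more than one end). -/
theorem result (G : Type) [Group G] (N : Subgroup G) (X : FinRes G) (Y : FinRes N)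
    (P : SubMap X N Y) (k : ℕ) (hP : P.Slow k) :
    ((∃ i ≤ k, Nontrivial (Y.homology (toRed N) i)) →
      ∃ i ≤ k, Nontrivial (X.homology (toRed G) i)) ∧
    (2 ≤ k → (Y.len ≤ 2 ∨ ∃ q ≤ 2, Nontrivial (Y.cohomology q)) →
      ∃ i ≤ k, Nontrivial (X.homology (toRed G) i)) := by
  refine ⟨Pool.Agent.Q134.ZS.slow_main P k hP, fun hk hY => ?_⟩
  obtain ⟨i, hi, hi'⟩ := Pool.Agent.H919R4.ZS.main Y hY
  exact Pool.Agent.Q134.ZS.slow_main P k hP ⟨i, hi.trans hk, hi'⟩

end Pool.Agent.Results.MP_48737f_gt.SlowMaps
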