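import Pool.Agent.Q134.ZS.Conj

/-!
Zero in the spectrum of a closed aspherical manifold from cycles of amenable subgroups which are
detected by cocycles of small growth.

A closed aspherical manifold `M` with fundamental group `G` is homotopy equivalent to a finite CW
complex, and the cellular chain complex of the universal cover of that complex is a finite free
resolution `X : FinRes G` of the trivial `ℤ[G]`-module `ℤ` (`Pool.Agent.H919R4.ZS.Defs`). Let `C` be
an amenable subgroup of `G`. Tuples `Fin (X.n k) → (G ⧸ C) → ℂ` are the `k`-chains and also the
`k`-cochains of the covering `M_C` with fundamental group `C` (`Pool.Agent.Q134.ZS.Defs`).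

The theorem: if a class in `H_k(C; ℂ) = H_k(M_C; ℂ)` has a nonzero pairing with a `k`-cocycle of
`M_C` of subexponential growth, then zero is in the spectrum. By Poincaré duality, for `M` of
dimension `n` such cocycles are dual to locally finite `(n-k)`-cycles of `M_C` of subexponential
growth, which intersect the given `k`-cycle; for example `M` of dimension `2 k` may contain two
flat `k`-tori with nonzero intersection number in `M_C`, the first one with group `C = ℤ^k`. More
generally it is enough to have such pairs with cocycles of arbitrarily small exponential growth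
(and with subgroups `C` which depend on the growth rate).
-/

set_option autoImplicit false

namespace Pool.Agent.Results.MP_48737f_gt.TransverseCycles

open Pool.Agent.H919R4.ZS (FinRes toRed)
open Pool.Agent.H496R3.ZS (IsAmenable)
open Pool.Agent.Q134.ZS (SuppIn IsCycle IsCocycle GrowthLE)

/-- Suppose that for every finite set `F ⊆ G` and every `lam > 1` there are an amenable subgroup
`C` of `G`, a `k`-cycle `a` of the covering `M_C` with support in a finite set `S` and a
`k`-cocycle `b` of `M_C` (not necessarily with finite support), such that the pairing `∑ a b` is
not zero and such that the sum of the squares of the values of `b` in `F^r • S` is at most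
`lam^r`, for infinitely many `r`. Then `H_i(M; C*_r(G)) ≠ 0` for some `i ≤ k`. -/
theorem result (G : Type) [Group G] (X : FinRes G) (k : ℕ)
    (h : ∀ (F : Finset G) (lam : ℝ), 1 < lam →
      ∃ C : Subgroup G, IsAmenable C ∧ ∃ (a b : Fin (X.n k) → (G ⧸ C) → ℂ) (S : Finset (G ⧸ C)),
        IsCycle X k a ∧ SuppIn a S ∧ IsCocycle X k b ∧
        ∑ j, ∑ z ∈ S, a j z * b j z ≠ 0 ∧ GrowthLE b S F lam) :
    ∃ i ≤ k, Nontrivial (X.homology (toRed G) i) := by
  refine Pool.Agent.Q134.ZS.slow_cocycle_coset X k fun F => ?_
  obtain ⟨C, hC, a, b, S, h1, h2, h3, h4, h5⟩ := h F 2 (by norm_num)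
  exact ⟨C, hC, a, b, S, h2, h1, h3, h4, h5⟩

end Pool.Agent.Results.MP_48737f_gt.TransverseCycles
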